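import Pool.Agent.Results.MP_4f7194_al.NoPrimitiveSwap

set_option autoImplicit false

/-!
# Replacing a relator by several elements of a free basis

Stallings asked whether in a finite presentation of the trivial group on `n ≥ 4` generators some
relator can always be replaced by a primitive element. The starting file `NoPrimitiveSwap` has, for
every `n ≥ 3`, a presentation with `n` relators for which this is impossible. Here the question is
answered for any number of elements of a free basis in place of one primitive element: `n - 2`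
elements do not suffice in general, for any number `m ≥ n` of relators, while `n - 1` elements always
suffice, for every presentation and every relator.
-/

namespace Pool.Agent.Results.MP_4f7194_al.PartialBases

open NoPrimitiveSwap Multiplicative

/-- The relators `r j`, `j ≠ i`, and the elements of `P`: the relator `r i` is replaced by `P`. -/
def replace {n m : ℕ} (r : Fin m → FreeGroup (Fin n)) (i : Fin m) (P : Set (FreeGroup (Fin n))) :
    Set (FreeGroup (Fin n)) :=
  r '' {i}ᶜ ∪ P

/-! ### the construction -/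

/-- generators, padded by ones -/
def pad (n m : ℕ) (j : Fin m) : FreeGroup (Fin n) :=
  if h : j.1 < n then FreeGroup.of ⟨j.1, h⟩ else 1

theorem closure_pad {n m : ℕ} (h : n ≤ m) : Subgroup.closure (Set.range (pad n m)) = ⊤ := by
  rw [eq_top_iff, ← FreeGroup.closure_range_of, Subgroup.closure_le]
  rintro _ ⟨i, rfl⟩
  apply Subgroup.subset_closure
  refine ⟨⟨i.1, by have := i.2; omega⟩, ?_⟩
  rw [pad, dif_pos i.2]

theorem trivial_of {n : ℕ} {P : Set (FreeGroup (Fin n))}
    (hr : Subgroup.normalClosure P = ⊤) : Subsingleton (PresentedGroup P) := by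
  refine ⟨fun a b => ?_⟩
  have key : ∀ c : PresentedGroup P, c = 1 := by
    intro c
    obtain ⟨x, rfl⟩ := QuotientGroup.mk_surjective c
    exact (QuotientGroup.eq_one_iff x).mpr (by rw [hr]; trivial)
  rw [key a, key b]

theorem of_trivial {n : ℕ} {P : Set (FreeGroup (Fin n))} (h : Subsingleton (PresentedGroup P)) :
    Subgroup.normalClosure P = ⊤ := by
  rw [eq_top_iff]
  intro x _
  exact (QuotientGroup.eq_one_iff x).mp (h.elim (QuotientGroup.mk x) 1)

/-- the basic construction: relators `r` such that `r i` is killed by all epimorphisms onto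
`A_(deg j + 3)` for `j ≠ i` -/
theorem exists_rel {n m : ℕ} (hn : 1 ≤ n) (hm : n ≤ m) :
    ∃ r : Fin m → FreeGroup (Fin n), Subgroup.normalClosure (Set.range r) = ⊤ ∧
      ∀ i j : Fin m, i ≠ j → ∀ φ : FreeGroup (Fin n) →* alternatingGroup (Fin (deg j + 3)),
        Function.Surjective φ → φ (r i) = 1 := by
  classical
  obtain ⟨m, rfl⟩ : ∃ k, m = k + 1 := ⟨m - 1, by omega⟩
  let T : Fin (m + 1) → Type := fun j => alternatingGroup (Fin (deg j + 3))
  let : ∀ j, Group (T j) := fun j => inferInstanceAs (Group (alternatingGroup (Fin (deg j + 3))))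
  have hsimple : ∀ j, IsSimpleGroup (T j) := fun j =>
    alternatingGroup.isSimpleGroup (by have := two_le_deg j; simp; omega)
  have hTfin : ∀ j, Finite (T j) := fun j =>
    inferInstanceAs (Finite (alternatingGroup (Fin (deg j + 3))))
  have hnc : ∀ j, ∃ a b : T j, a * b ≠ b * a := fun j => alt_noncomm _ (two_le_deg j)
  have hKfin : ∀ j, {M : Subgroup (FreeGroup (Fin n)) |
      ∃ φ : FreeGroup (Fin n) →* T j, Function.Surjective φ ∧ φ.ker = M}.Finite := by
    intro j
    have hf : Finite (FreeGroup (Fin n) →* T j) := Finite.of_equiv _ FreeGroup.lift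
    refine (Set.finite_range (fun φ : FreeGroup (Fin n) →* T j => φ.ker)).subset ?_
    rintro M ⟨φ, -, h⟩
    exact ⟨φ, h⟩
  let K : Fin (m + 1) → Finset (Subgroup (FreeGroup (Fin n))) := fun j =>
    (hKfin j).toFinset
  have hKmem : ∀ j M, M ∈ K j ↔
      ∃ φ : FreeGroup (Fin n) →* T j, Function.Surjective φ ∧ φ.ker = M := by
    intro j M
    exact (hKfin j).mem_toFinset
  obtain ⟨r, hr, hdeep⟩ := exists_deep (pad n (m + 1)) (closure_pad hm) K (by
      intro i M hM
      obtain ⟨φ, hφ, rfl⟩ := (hKmem i M).mp hM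
      exact PM.ker (hnc i) φ hφ) (by
      intro i j M hi hj
      obtain ⟨φ, hφ, hφM⟩ := (hKmem i M).mp hi
      obtain ⟨ψ, hψ, hψM⟩ := (hKmem j M).mp hj
      have h1 : Nat.card (T i) = M.index := by
        rw [← hφM, Subgroup.index_ker, MonoidHom.range_eq_top.mpr hφ]
        simp
      have h2 : Nat.card (T j) = M.index := by
        rw [← hψM, Subgroup.index_ker, MonoidHom.range_eq_top.mpr hψ]
        simp
      exact Fin.ext (deg_inj (card_alt_inj (h1.trans h2.symm))))
  exact ⟨r, hr, fun i j hij φ hφ => hdeep i j hij φ.ker ((hKmem j _).mpr ⟨φ, hφ, rfl⟩)⟩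

/-- the groups with a relator replaced are not solvable -/
theorem not_solvable {n m : ℕ} {r : Fin m → FreeGroup (Fin n)}
    (hr : ∀ i j : Fin m, i ≠ j → ∀ φ : FreeGroup (Fin n) →* alternatingGroup (Fin (deg j + 3)),
        Function.Surjective φ → φ (r i) = 1) (i : Fin m)
    (f : FreeGroup (Fin n) →* FreeGroup (Fin 2)) (hf : Function.Surjective f)
    (P : Set (FreeGroup (Fin n))) (hP : ∀ p ∈ P, f p = 1) :
    ¬ Group.IsSolvable (PresentedGroup (replace r i P)) := by
  intro hs
  obtain ⟨a, b, hab⟩ := alt_two_gen (deg i) (deg_prime i) (deg_even i)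
  let g : FreeGroup (Fin 2) →* alternatingGroup (Fin (deg i + 3)) := FreeGroup.lift ![a, b]
  have hg : Function.Surjective g := by
    rw [← MonoidHom.range_eq_top, eq_top_iff, ← hab, Subgroup.closure_le]
    rintro x hx
    rcases hx with rfl | rfl
    · exact ⟨FreeGroup.of 0, by simp [g]⟩
    · exact ⟨FreeGroup.of 1, by simp [g]⟩
  have hφ : Function.Surjective (g.comp f) := hg.comp hf
  have hrel : ∀ x ∈ replace r i P, (g.comp f) x = 1 := by
    rintro x (⟨j, hj, rfl⟩ | hx)
    · exact hr j i hj _ hφ
    · rw [MonoidHom.comp_apply, hP x hx, map_one]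
  have hle : Subgroup.normalClosure (replace r i P) ≤ (g.comp f).ker :=
    Subgroup.normalClosure_le_normal (fun x hx => hrel x hx)
  let ψ : PresentedGroup (replace r i P) →* alternatingGroup (Fin (deg i + 3)) :=
    QuotientGroup.lift _ (g.comp f) hle
  have hψ : Function.Surjective ψ := by
    intro y
    obtain ⟨x, hx⟩ := hφ y
    exact ⟨QuotientGroup.mk x, hx⟩
  haveI := hs
  have hsT : Group.IsSolvable (alternatingGroup (Fin (deg i + 3))) :=
    Group.isSolvable_of_surjective hψ
  have hsimple : IsSimpleGroup (alternatingGroup (Fin (deg i + 3))) :=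
    alternatingGroup.isSimpleGroup (by have := two_le_deg i; simp; omega)
  obtain ⟨x, y, hxy⟩ := alt_noncomm _ (two_le_deg i)
  exact hxy (IsSimpleGroup.comm_iff_isSolvable.2 hsT x y)

/-- elements of a basis, all but two of them at least, are killed by an epimorphism onto the free
group of rank two -/
theorem exists_epi {n : ℕ} {ι : Type} (b : FreeGroupBasis ι (FreeGroup (Fin n))) (s : Finset ι)
    (hs : s.card + 2 ≤ n) : ∃ f : FreeGroup (Fin n) →* FreeGroup (Fin 2),
      Function.Surjective f ∧ ∀ p ∈ b '' s, f p = 1 := by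
  classical
  have e : ι ≃ Fin n := Equiv.ofFreeGroupEquiv b.repr.symm
  have hfin : Fintype ι := Fintype.ofEquiv _ e.symm
  have hcard : Fintype.card ι = n := by rw [Fintype.card_congr e, Fintype.card_fin]
  obtain ⟨i₁, hi₁⟩ : ∃ i₁ : ι, i₁ ∉ s := by
    by_contra h
    push Not at h
    have := Finset.card_le_card (fun x _ => h x : (Finset.univ : Finset ι) ⊆ s)
    rw [Finset.card_univ, hcard] at this
    omega
  obtain ⟨i₂, hi₂⟩ : ∃ i₂ : ι, i₂ ∉ insert i₁ s := by
    by_contra h
    push Not at h
    have := Finset.card_le_card (fun x _ => h x : (Finset.univ : Finset ι) ⊆ insert i₁ s)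
    have h2 := Finset.card_insert_le i₁ s
    rw [Finset.card_univ, hcard] at this
    omega
  rw [Finset.mem_insert, not_or] at hi₂
  let f : FreeGroup (Fin n) →* FreeGroup (Fin 2) :=
    b.lift (fun k => if k = i₁ then FreeGroup.of 0 else if k = i₂ then FreeGroup.of 1 else 1)
  have h1 : f (b i₁) = FreeGroup.of 0 := by simp [f]
  have h2 : f (b i₂) = FreeGroup.of 1 := by simp [f, hi₂.1]
  refine ⟨f, ?_, ?_⟩
  · rw [← MonoidHom.range_eq_top, eq_top_iff, ← FreeGroup.closure_range_of, Subgroup.closure_le]
    rintro _ ⟨k, rfl⟩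
    fin_cases k
    · exact ⟨_, h1⟩
    · exact ⟨_, h2⟩
  · rintro _ ⟨k, hk, rfl⟩
    have hk1 : k ≠ i₁ := fun h => hi₁ (h ▸ hk)
    have hk2 : k ≠ i₂ := fun h => hi₂.2 (h ▸ hk)
    simp [f, hk1, hk2]

/-! ### `n - 1` elements of a basis suffice -/

/-- exponent sums -/
def ex {n : ℕ} (j : Fin n) : FreeGroup (Fin n) →* Multiplicative ℤ :=
  FreeGroup.lift (fun i => if i = j then ofAdd 1 else 1)

/-- the shear `x_1 ↦ x_1 x_0 ^ c` -/
def shearHom {n : ℕ} (c : ℤ) : FreeGroup (Fin (n + 2)) →* FreeGroup (Fin (n + 2)) :=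
  FreeGroup.lift (fun i => if i = 1 then FreeGroup.of 1 * FreeGroup.of 0 ^ c else FreeGroup.of i)

theorem shear_one {n : ℕ} (c : ℤ) : shearHom (n := n) c (FreeGroup.of 1) =
    FreeGroup.of 1 * FreeGroup.of 0 ^ c := by
  simp [shearHom]

theorem shear_ne {n : ℕ} (c : ℤ) {i : Fin (n + 2)} (h : i ≠ 1) :
    shearHom c (FreeGroup.of i) = FreeGroup.of i := by
  simp [shearHom, h]

theorem zero_ne_one' {n : ℕ} : (0 : Fin (n + 2)) ≠ 1 := by
  intro h
  have := congrArg Fin.val h
  simp at this

theorem shear_comp {n : ℕ} (c d : ℤ) (h : c + d = 0) :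
    (shearHom (n := n) c).comp (shearHom d) = MonoidHom.id _ := by
  apply FreeGroup.ext_hom
  intro i
  rw [MonoidHom.comp_apply, MonoidHom.id_apply]
  by_cases hi : i = 1
  · rw [hi, shear_one, map_mul, map_zpow, shear_one, shear_ne c zero_ne_one', mul_assoc,
      ← zpow_add, h, zpow_zero, mul_one]
  · rw [shear_ne d hi, shear_ne c hi]

/-- the shear as an automorphism -/
def shear {n : ℕ} (c : ℤ) : FreeGroup (Fin (n + 2)) ≃* FreeGroup (Fin (n + 2)) :=
  MonoidHom.toMulEquiv (shearHom c) (shearHom (-c)) (shear_comp _ _ (by omega))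
    (shear_comp _ _ (by omega))

theorem ex_shear {n : ℕ} (c : ℤ) (w : FreeGroup (Fin (n + 2))) :
    ex 0 (shear c w) = ex 0 w * (ex 1 w) ^ c := by
  have h : (ex 0).comp (shearHom (n := n) c) =
      { toFun := fun w => ex 0 w * (ex 1 w) ^ c
        map_one' := by simp
        map_mul' := fun a b => by
          simp only [map_mul, mul_zpow]
          rw [mul_mul_mul_comm] } := by
    apply FreeGroup.ext_hom
    intro i
    by_cases hi : i = 1
    · subst hi
      simp [shearHom, ex]
    · by_cases h0 : i = 0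
      · subst h0
        simp [shearHom, ex]
      · simp [shearHom, ex, hi, h0]
  exact DFunLike.congr_fun h w

theorem ex_one_shear {n : ℕ} (c : ℤ) (w : FreeGroup (Fin (n + 2))) :
    ex 1 (shear c w) = ex 1 w := by
  have h : (ex 1).comp (shearHom (n := n) c) = ex 1 := by
    apply FreeGroup.ext_hom
    intro i
    by_cases hi : i = 1
    · subst hi
      simp [shearHom, ex]
    · simp [shearHom, ex, hi]
  exact DFunLike.congr_fun h w

/-- the exchange of the first two generators -/
def swp {n : ℕ} : FreeGroup (Fin (n + 2)) ≃* FreeGroup (Fin (n + 2)) :=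
  FreeGroup.freeGroupCongr (Equiv.swap 0 1)

theorem ex_swp {n : ℕ} (w : FreeGroup (Fin (n + 2))) : ex 0 (swp w) = ex 1 w := by
  have h : (ex 0).comp (swp (n := n)).toMonoidHom = ex 1 := by
    apply FreeGroup.ext_hom
    intro i
    simp only [MonoidHom.comp_apply, swp, MulEquiv.coe_toMonoidHom, FreeGroup.freeGroupCongr_apply,
      FreeGroup.map.of, ex, FreeGroup.lift_apply_of]
    congr 1
    rw [Equiv.swap_apply_eq_iff, Equiv.swap_apply_left]
  exact DFunLike.congr_fun h w

theorem ex_one_swp {n : ℕ} (w : FreeGroup (Fin (n + 2))) : ex 1 (swp w) = ex 0 w := by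
  have h : (ex 1).comp (swp (n := n)).toMonoidHom = ex 0 := by
    apply FreeGroup.ext_hom
    intro i
    simp only [MonoidHom.comp_apply, swp, MulEquiv.coe_toMonoidHom, FreeGroup.freeGroupCongr_apply,
      FreeGroup.map.of, ex, FreeGroup.lift_apply_of]
    congr 1
    rw [Equiv.swap_apply_eq_iff, Equiv.swap_apply_right]
  exact DFunLike.congr_fun h w

/-- by an automorphism the first exponent sum becomes zero -/
theorem exists_aut {n : ℕ} : ∀ (N : ℕ) (w : FreeGroup (Fin (n + 2))),
    (toAdd (ex 1 w)).natAbs ≤ N →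
    ∃ α : FreeGroup (Fin (n + 2)) ≃* FreeGroup (Fin (n + 2)), ex 0 (α w) = 1 := by
  intro N
  induction N with
  | zero =>
    intro w hw
    refine ⟨swp, ?_⟩
    rw [ex_swp]
    have : toAdd (ex 1 w) = 0 := by omega
    exact toAdd_eq_zero.mp this
  | succ N ih =>
    intro w hw
    by_cases h0 : toAdd (ex 1 w) = 0
    · exact ⟨swp, by rw [ex_swp]; exact toAdd_eq_zero.mp h0⟩
    · set c : ℤ := - (toAdd (ex 0 w) / toAdd (ex 1 w)) with hc
      have h1 : toAdd (ex 0 (shear c w)) = toAdd (ex 0 w) % toAdd (ex 1 w) := by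
        rw [ex_shear, toAdd_mul, toAdd_zpow, hc, Int.emod_def]
        simp only [smul_eq_mul]
        ring
      have h2 : (toAdd (ex 1 (swp (shear c w)))).natAbs ≤ N := by
        rw [ex_one_swp, h1]
        have h3 := Int.emod_nonneg (toAdd (ex 0 w)) h0
        have h4 := Int.emod_lt_abs (toAdd (ex 0 w)) h0
        rw [Int.abs_eq_natAbs] at h4
        omega
      obtain ⟨α, hα⟩ := ih _ h2
      exact ⟨(shear c).trans (swp.trans α), hα⟩

/-- killing all generators but the first one -/
theorem kill {n : ℕ} (N : Subgroup (FreeGroup (Fin (n + 2)))) [hN : N.Normal]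
    (h : ∀ k : Fin (n + 2), k ≠ 0 → FreeGroup.of k ∈ N) (w : FreeGroup (Fin (n + 2))) :
    (FreeGroup.of 0 ^ (toAdd (ex 0 w)))⁻¹ * w ∈ N := by
  have h1 : (QuotientGroup.mk' N) =
      ((zpowersHom _ (QuotientGroup.mk' N (FreeGroup.of 0))).comp (ex 0)) := by
    apply FreeGroup.ext_hom
    intro i
    by_cases hi : i = 0
    · subst hi
      simp [ex]
    · have h2 : QuotientGroup.mk' N (FreeGroup.of i) = 1 := (QuotientGroup.eq_one_iff _).2 (h i hi)
      rw [h2]
      simp [ex, hi]
  have h2 := DFunLike.congr_fun h1 w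
  have h3 : QuotientGroup.mk' N w = QuotientGroup.mk' N (FreeGroup.of 0 ^ (toAdd (ex 0 w))) := by
    rw [h2, map_zpow]
    simp [zpowersHom_apply]
  exact QuotientGroup.eq.1 h3.symm

theorem suffice {n m : ℕ} (r : Fin m → FreeGroup (Fin (n + 2)))
    (hr : Subgroup.normalClosure (Set.range r) = ⊤) (i : Fin m) :
    ∃ b : FreeGroupBasis (Fin (n + 2)) (FreeGroup (Fin (n + 2))),
      Subgroup.normalClosure (replace r i (b '' ((Finset.univ.erase 0 : Finset (Fin (n + 2))) :
        Set (Fin (n + 2))))) = ⊤ := by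
  classical
  obtain ⟨α, hα⟩ := exists_aut _ (r i) le_rfl
  refine ⟨(FreeGroupBasis.ofFreeGroup (Fin (n + 2))).map α.symm, ?_⟩
  set b := (FreeGroupBasis.ofFreeGroup (Fin (n + 2))).map α.symm with hb
  have hbk : ∀ k, b k = α.symm (FreeGroup.of k) := fun k => rfl
  set N := Subgroup.normalClosure (replace r i (b '' ((Finset.univ.erase 0 :
    Finset (Fin (n + 2))) : Set (Fin (n + 2))))) with hN
  have hNn : N.Normal := Subgroup.normalClosure_normal
  let N' : Subgroup (FreeGroup (Fin (n + 2))) := N.comap α.symm.toMonoidHom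
  have hN'n : N'.Normal := Subgroup.normal_comap _
  have hk : ∀ k : Fin (n + 2), k ≠ 0 → FreeGroup.of k ∈ N' := by
    intro k hk
    show α.symm (FreeGroup.of k) ∈ N
    apply Subgroup.subset_normalClosure
    right
    exact ⟨k, by simpa using hk, hbk k⟩
  have hrj : ∀ j, j ≠ i → α (r j) ∈ N' := by
    intro j hj
    show α.symm (α (r j)) ∈ N
    rw [MulEquiv.symm_apply_apply]
    apply Subgroup.subset_normalClosure
    left
    exact ⟨j, hj, rfl⟩
  have hri : α (r i) ∈ N' := by
    have := kill N' hk (α (r i))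
    rw [hα] at this
    simpa using this
  have hall : ∀ j, r j ∈ N := by
    intro j
    have h1 : α (r j) ∈ N' := by
      by_cases hj : j = i
      · rw [hj]; exact hri
      · exact hrj j hj
    have h2 : α.symm (α (r j)) ∈ N := h1
    rwa [MulEquiv.symm_apply_apply] at h2
  rw [eq_top_iff, ← hr]
  refine Subgroup.normalClosure_le_normal ?_
  rintro _ ⟨j, rfl⟩
  exact hall j

/-- (1) For all `2 ≤ n ≤ m` there are `m` relators `r j` in the free group `F_n` which define the
trivial group, such that the group is no longer trivial, and not even solvable, if one of the relators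
is replaced by arbitrarily many elements of the kernel of an epimorphism from `F_n` onto `F_2`, in
particular if it is replaced by at most `n - 2` elements of a free basis of `F_n`.
(2) For every `n ≥ 2` and all finitely many relators `r j` in `F_n` which define the trivial group,
each relator can be replaced by `n - 1` elements of a suitable free basis. -/
theorem result :
    (∀ n m : ℕ, 2 ≤ n → n ≤ m → ∃ r : Fin m → FreeGroup (Fin n),
      Subsingleton (PresentedGroup (Set.range r)) ∧
      ∀ i : Fin m,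
        (∀ f : FreeGroup (Fin n) →* FreeGroup (Fin 2), Function.Surjective f →
          ∀ P : Set (FreeGroup (Fin n)), (∀ p ∈ P, f p = 1) →
            ¬ Group.IsSolvable (PresentedGroup (replace r i P))) ∧
        ∀ (ι : Type) (b : FreeGroupBasis ι (FreeGroup (Fin n))) (s : Finset ι), s.card + 2 ≤ n →
          ¬ Group.IsSolvable (PresentedGroup (replace r i (b '' (s : Set ι))))) ∧
    ∀ n m : ℕ, 2 ≤ n → ∀ r : Fin m → FreeGroup (Fin n),
      Subsingleton (PresentedGroup (Set.range r)) → ∀ i : Fin m,
        ∃ (b : FreeGroupBasis (Fin n) (FreeGroup (Fin n))) (s : Finset (Fin n)), s.card + 1 = n ∧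
          Subsingleton (PresentedGroup (replace r i (b '' (s : Set (Fin n))))) := by
  refine ⟨fun n m hn hm => ?_, fun n m hn r hr i => ?_⟩
  · obtain ⟨r, hr, h⟩ := exists_rel (by omega) hm
    refine ⟨r, trivial_of hr, fun i => ⟨fun f hf P hP => not_solvable h i f hf P hP,
      fun ι b s hs => ?_⟩⟩
    obtain ⟨f, hf, hP⟩ := exists_epi b s hs
    exact not_solvable h i f hf _ hP
  · obtain ⟨n, rfl⟩ : ∃ k, n = k + 2 := ⟨n - 2, by omega⟩
    obtain ⟨b, hb⟩ := suffice r (of_trivial hr) i
    refine ⟨b, Finset.univ.erase 0, ?_, trivial_of hb⟩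
    rw [Finset.card_erase_of_mem (Finset.mem_univ _), Finset.card_univ, Fintype.card_fin]
    omega

end Pool.Agent.Results.MP_4f7194_al.PartialBases
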